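import Pool.Agent.Run7.h203.LeafCyc.Main

/-!
# MP_03adb9_gt, Q1: the answer is negative

For every leaf dimension `2 n ≥ 4` and every codimension `k`, let `M = ℂⁿ × ℝᵏ` be foliated by the
leaves `ℂⁿ × {s}`, with `J` the standard (integrable) leafwise complex structure.  There is a
`C`-cycle on `M` which on no neighbourhood of the origin is a superposition of pseudoholomorphic
curves.

The cycle is the tropical current: the sum of the currents of integration over the complex
half-lines `{(i θ, η) : Re η < 0}`, `{(ζ, i θ) : Re ζ < 0}`, `{(τ, τ + i θ) : Re τ > 0}`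
(`θ ∈ ℝ`, in `ℂ² × {0}`), that is, up to a factor, `dd^c max (0, Re z₁, Re z₂)`.
-/

open Run7.h203.LeafCyc

namespace Pool.Agent.Results.MP_03adb9_gt.TropicalCycle

/-- On `ℂⁿ × ℝᵏ`, `n ≥ 2`, with the leaves `ℂⁿ × {s}` and `J = i`, there are a `C`-cycle `c` and a
point `x` such that on no open neighbourhood of `x` is `c` a superposition of pseudoholomorphic
curves. -/
theorem result : ∀ n k : ℕ, 2 ≤ n → HasNonSuperposableCycle (Fin n → ℂ) (Fin k → ℝ) := by
  intro n k hn
  obtain ⟨m, rfl⟩ : ∃ m, n = m + 2 := ⟨n - 2, by omega⟩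
  exact hasNonSuperposableCycle

end Pool.Agent.Results.MP_03adb9_gt.TropicalCycle
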